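import Pool.Agent.W973.IP.FDefs

/-!
# Isolated points of the combination
-/

set_option autoImplicit false

namespace Pool.Agent.W111.IP

open Pool.Agent.W973.IP Pool.Agent.NPC Pool.Agent.NPC.H612 Pool.Agent.NPC.ER Filter Topology

/-! ### Variables -/

theorem mem_fvars_eq {s t : Tm} {i : ℕ} : i ∈ fvars (Fm.eq s t) ↔ i ∈ tvars s ∨ i ∈ tvars t := by
  simp [fvars, tvars, Fm.toks, tokv, Tok.code]

theorem mem_fvars_lt {s t : Tm} {i : ℕ} : i ∈ fvars (Fm.lt s t) ↔ i ∈ tvars s ∨ i ∈ tvars t := by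
  simp [fvars, tvars, Fm.toks, tokv, Tok.code]

theorem mem_fvars_le {s t : Tm} {i : ℕ} : i ∈ fvars (Fm.le s t) ↔ i ∈ tvars s ∨ i ∈ tvars t := by
  simp [fvars, tvars, Fm.toks, tokv, Tok.code]

theorem mem_fvars_not {φ : Fm} {i : ℕ} : i ∈ fvars (Fm.not φ) ↔ i ∈ fvars φ := by
  simp [fvars, Fm.toks, tokv, Tok.code]

theorem mem_fvars_and {φ ψ : Fm} {i : ℕ} :
    i ∈ fvars (Fm.and φ ψ) ↔ i ∈ fvars φ ∨ i ∈ fvars ψ := by
  simp [fvars, Fm.toks, tokv, Tok.code]

theorem mem_fvars_or {φ ψ : Fm} {i : ℕ} :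
    i ∈ fvars (Fm.or φ ψ) ↔ i ∈ fvars φ ∨ i ∈ fvars ψ := by
  simp [fvars, Fm.toks, tokv, Tok.code]

theorem mem_tvars_var {i j : ℕ} : i ∈ tvars (Tm.var j) ↔ i = j := by
  simp [tvars, Tm.toks, tokv, Tok.code]

theorem mem_tvars_zero {i : ℕ} : i ∈ tvars Tm.zero ↔ False := by
  simp [tvars, Tm.toks, tokv, Tok.code]

theorem mem_tvars_one {i : ℕ} : i ∈ tvars Tm.one ↔ False := by
  simp [tvars, Tm.toks, tokv, Tok.code]

theorem mem_tvars_add {s t : Tm} {i : ℕ} :
    i ∈ tvars (Tm.add s t) ↔ i ∈ tvars s ∨ i ∈ tvars t := by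
  simp [tvars, Tm.toks, tokv, Tok.code]

theorem mem_tvars_neg {s : Tm} {i : ℕ} : i ∈ tvars (Tm.neg s) ↔ i ∈ tvars s := by
  simp [tvars, Tm.toks, tokv, Tok.code]

theorem mem_tvars_mul {s t : Tm} {i : ℕ} :
    i ∈ tvars (Tm.mul s t) ↔ i ∈ tvars s ∨ i ∈ tvars t := by
  simp [tvars, Tm.toks, tokv, Tok.code]

theorem mem_fvars_tt {i : ℕ} : i ∈ fvars tt ↔ False := by
  simp [tt, mem_fvars_eq, mem_tvars_zero]

theorem mem_fvars_conj {l : List Fm} {i : ℕ} : i ∈ fvars (conj l) ↔ ∃ φ ∈ l, i ∈ fvars φ := by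
  induction l with
  | nil =>
    have h : conj ([] : List Fm) = tt := rfl
    rw [h]
    simp [mem_fvars_tt]
  | cons a l ih =>
    have h : conj (a :: l) = Fm.and a (conj l) := rfl
    rw [h, mem_fvars_and, ih]
    simp

/-! ### Dependence on the variables -/

theorem eval_congr {x y : ℕ → ℝ} : ∀ t : Tm, (∀ i ∈ tvars t, x i = y i) → t.eval x = t.eval y := by
  intro t
  induction t with
  | var i => exact fun h => h i (mem_tvars_var.2 rfl)
  | zero => exact fun _ => rfl
  | one => exact fun _ => rfl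
  | add s t ihs iht =>
    intro h
    simp only [Tm.eval]
    rw [ihs fun i hi => h i (mem_tvars_add.2 (Or.inl hi)),
      iht fun i hi => h i (mem_tvars_add.2 (Or.inr hi))]
  | neg t iht =>
    intro h
    simp only [Tm.eval]
    rw [iht fun i hi => h i (mem_tvars_neg.2 hi)]
  | mul s t ihs iht =>
    intro h
    simp only [Tm.eval]
    rw [ihs fun i hi => h i (mem_tvars_mul.2 (Or.inl hi)),
      iht fun i hi => h i (mem_tvars_mul.2 (Or.inr hi))]

theorem holds_congr {x y : ℕ → ℝ} : ∀ φ : Fm, (∀ i ∈ fvars φ, x i = y i) →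
    (φ.Holds x ↔ φ.Holds y) := by
  intro φ
  induction φ with
  | eq s t =>
    intro h
    simp only [Fm.Holds]
    rw [eval_congr s fun i hi => h i (mem_fvars_eq.2 (Or.inl hi)),
      eval_congr t fun i hi => h i (mem_fvars_eq.2 (Or.inr hi))]
  | lt s t =>
    intro h
    simp only [Fm.Holds]
    rw [eval_congr s fun i hi => h i (mem_fvars_lt.2 (Or.inl hi)),
      eval_congr t fun i hi => h i (mem_fvars_lt.2 (Or.inr hi))]
  | le s t =>
    intro h
    simp only [Fm.Holds]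
    rw [eval_congr s fun i hi => h i (mem_fvars_le.2 (Or.inl hi)),
      eval_congr t fun i hi => h i (mem_fvars_le.2 (Or.inr hi))]
  | not φ ih =>
    intro h
    simp only [Fm.Holds]
    rw [ih fun i hi => h i (mem_fvars_not.2 hi)]
  | and φ ψ ih1 ih2 =>
    intro h
    simp only [Fm.Holds]
    rw [ih1 fun i hi => h i (mem_fvars_and.2 (Or.inl hi)),
      ih2 fun i hi => h i (mem_fvars_and.2 (Or.inr hi))]
  | or φ ψ ih1 ih2 =>
    intro h
    simp only [Fm.Holds]
    rw [ih1 fun i hi => h i (mem_fvars_or.2 (Or.inl hi)),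
      ih2 fun i hi => h i (mem_fvars_or.2 (Or.inr hi))]

/-! ### Renaming -/

theorem tvars_tren (σ : ℕ → ℕ) (t : Tm) : tvars (tren σ t) = (tvars t).map σ := by
  induction t with
  | var i => simp [tren, tvars, Tm.toks, tokv, Tok.code]
  | zero => simp [tren, tvars, Tm.toks, tokv, Tok.code]
  | one => simp [tren, tvars, Tm.toks, tokv, Tok.code]
  | add s t ihs iht =>
    simp only [tvars] at ihs iht
    simp [tren, tvars, Tm.toks, ihs, iht, tokv, Tok.code]
  | neg t iht =>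
    simp only [tvars] at iht
    simp [tren, tvars, Tm.toks, iht, tokv, Tok.code]
  | mul s t ihs iht =>
    simp only [tvars] at ihs iht
    simp [tren, tvars, Tm.toks, ihs, iht, tokv, Tok.code]

theorem mem_fvars_fren (σ : ℕ → ℕ) (φ : Fm) (j : ℕ) :
    j ∈ fvars (fren σ φ) ↔ ∃ i ∈ fvars φ, j = σ i := by
  induction φ with
  | eq s t =>
    simp only [fren, mem_fvars_eq, tvars_tren, List.mem_map]
    grind
  | lt s t =>
    simp only [fren, mem_fvars_lt, tvars_tren, List.mem_map]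
    grind
  | le s t =>
    simp only [fren, mem_fvars_le, tvars_tren, List.mem_map]
    grind
  | not φ ih =>
    simp only [fren, mem_fvars_not, ih]
  | and φ ψ ih1 ih2 =>
    simp only [fren, mem_fvars_and, ih1, ih2]
    grind
  | or φ ψ ih1 ih2 =>
    simp only [fren, mem_fvars_or, ih1, ih2]
    grind

theorem eval_tren (σ : ℕ → ℕ) (x : ℕ → ℝ) (t : Tm) :
    (tren σ t).eval x = t.eval fun i => x (σ i) := by
  induction t with
  | var i => rfl
  | zero => rfl
  | one => rfl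
  | add s t ihs iht => simp only [tren, Tm.eval, ihs, iht]
  | neg t iht => simp only [tren, Tm.eval, iht]
  | mul s t ihs iht => simp only [tren, Tm.eval, ihs, iht]

theorem holds_fren (σ : ℕ → ℕ) (x : ℕ → ℝ) (φ : Fm) :
    (fren σ φ).Holds x ↔ φ.Holds fun i => x (σ i) := by
  induction φ with
  | eq s t => simp only [fren, Fm.Holds, eval_tren]
  | lt s t => simp only [fren, Fm.Holds, eval_tren]
  | le s t => simp only [fren, Fm.Holds, eval_tren]
  | not φ ih => simp only [fren, Fm.Holds, ih]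
  | and φ ψ ih1 ih2 => simp only [fren, Fm.Holds, ih1, ih2]
  | or φ ψ ih1 ih2 => simp only [fren, Fm.Holds, ih1, ih2]

/-! ### The combination -/

section

variable (F κ : Fm)

theorem mem_varsOf {c : ER.Con} {S : List ER.Con} (hc : c ∈ S) {i : ℕ} (hi : i ∈ c.vars) :
    i ∈ varsOf S := by
  unfold varsOf
  exact List.mem_flatMap.2 ⟨c, hc, hi⟩

theorem mem_scon {c : ER.Con} {j : ℕ} (h : j ∈ fvars (scon c)) : j = 2 ∨ ∃ v ∈ c.vars, j = 3 * v + 1 := by
  cases c with
  | one i =>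
    simp only [scon, mem_fvars_eq, mem_tvars_var] at h
    rcases h with h | h
    · exact Or.inr ⟨i, by simp [ER.Con.vars], h⟩
    · exact Or.inl h
  | add i j k =>
    simp only [scon, mem_fvars_eq, mem_tvars_var, mem_tvars_add] at h
    rcases h with (h | h) | h
    · exact Or.inr ⟨i, by simp [ER.Con.vars], h⟩
    · exact Or.inr ⟨j, by simp [ER.Con.vars], h⟩
    · exact Or.inr ⟨k, by simp [ER.Con.vars], h⟩
  | mul i j k =>
    simp only [scon, mem_fvars_eq, mem_tvars_var, mem_tvars_mul] at h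
    rcases h with (h | h) | h | h
    · exact Or.inr ⟨i, by simp [ER.Con.vars], h⟩
    · exact Or.inr ⟨j, by simp [ER.Con.vars], h⟩
    · exact Or.inl h
    · exact Or.inr ⟨k, by simp [ER.Con.vars], h⟩

theorem mem_fvars_comb (j : ℕ) : j ∈ fvars (comb F κ) ↔
    (∃ i ∈ fvars F, j = 3 * i) ∨ j = 2 ∨ ∃ v ∈ varsOf (sysOf κ), j = 3 * v + 1 := by
  simp only [comb, mem_fvars_and, mem_fvars_or, mem_fvars_fren, mem_fvars_conj, mem_fvars_eq,
    mem_fvars_lt, mem_tvars_var, mem_tvars_zero, List.mem_map]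
  constructor
  · rintro (h | ((h | h) | (⟨φ, ⟨v, hv, rfl⟩, h⟩)) | ((h | h) | (⟨φ, ⟨c, hc, rfl⟩, h⟩) | (⟨φ, ⟨v, hv, rfl⟩, h⟩)))
    · exact Or.inl h
    · exact Or.inr (Or.inl h)
    · exact h.elim
    · simp only [mem_fvars_eq, mem_tvars_var, mem_tvars_zero, or_false] at h
      exact Or.inr (Or.inr ⟨v, hv, h⟩)
    · exact h.elim
    · exact Or.inr (Or.inl h)
    · rcases mem_scon h with h | ⟨v, hv, h⟩
      · exact Or.inr (Or.inl h)
      · exact Or.inr (Or.inr ⟨v, mem_varsOf hc hv, h⟩)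
    · by_cases hv2 : v % 2 = 0 ∧ v / 2 ∈ fvars F
      · rw [if_pos hv2] at h
        simp only [mem_fvars_eq, mem_tvars_var, mem_tvars_mul] at h
        rcases h with h | h | h
        · exact Or.inr (Or.inr ⟨v, hv, h⟩)
        · exact Or.inr (Or.inl h)
        · exact Or.inl ⟨_, hv2.2, h⟩
      · rw [if_neg hv2] at h
        exact (mem_fvars_tt.1 h).elim
  · rintro (h | h | ⟨v, hv, h⟩)
    · exact Or.inl h
    · exact Or.inr (Or.inl (Or.inl (Or.inl h)))
    · refine Or.inr (Or.inl (Or.inr ⟨_, ⟨v, hv, rfl⟩, ?_⟩))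
      simp only [mem_fvars_eq, mem_tvars_var]
      exact Or.inl h

theorem scon_holds {p : ℕ → ℝ} (hs : 0 < p 2) (c : ER.Con) :
    (scon c).Holds p ↔ c.Holds fun v => p (3 * v + 1) / p 2 := by
  have h0 : p 2 ≠ 0 := hs.ne'
  cases c with
  | one i =>
    simp only [scon, Fm.Holds, Tm.eval, ER.Con.Holds]
    rw [div_eq_one_iff_eq h0]
  | add i j k =>
    simp only [scon, Fm.Holds, Tm.eval, ER.Con.Holds]
    rw [← add_div, div_left_inj' h0]
  | mul i j k =>
    simp only [scon, Fm.Holds, Tm.eval, ER.Con.Holds]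
    rw [div_mul_div_comm, div_eq_div_iff (mul_ne_zero h0 h0) h0]
    constructor
    · intro h
      rw [h]
      ring
    · intro h
      have h1 : p 2 * (p (3 * i + 1) * p (3 * j + 1)) = p 2 * (p 2 * p (3 * k + 1)) := by
        linear_combination h
      exact mul_left_cancel₀ h0 h1

theorem comb_holds (p : ℕ → ℝ) : (comb F κ).Holds p ↔ F.Holds (fun i => p (3 * i)) ∧
    ((p 2 = 0 ∧ ∀ v ∈ varsOf (sysOf κ), p (3 * v + 1) = 0) ∨
      (0 < p 2 ∧ SysHolds (fun v => p (3 * v + 1) / p 2) (sysOf κ) ∧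
        ∀ v ∈ varsOf (sysOf κ), v % 2 = 0 → v / 2 ∈ fvars F →
          p (3 * v + 1) / p 2 = p (3 * (v / 2)))) := by
  simp only [comb, Fm.Holds, holds_fren, holds_conj, List.mem_map, Tm.eval,
    forall_exists_index, and_imp, forall_apply_eq_imp_iff₂]
  refine and_congr_right fun _ => or_congr_right ?_
  refine and_congr_right fun hs => and_congr ?_ ?_
  · unfold SysHolds
    exact forall₂_congr fun c _ => scon_holds hs c
  · refine forall₂_congr fun v _ => ?_
    by_cases h : v % 2 = 0 ∧ v / 2 ∈ fvars F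
    · rw [if_pos h]
      simp only [Fm.Holds, Tm.eval, h.1, h.2, forall_const]
      rw [div_eq_iff hs.ne', mul_comm (p 2)]
    · rw [if_neg h]
      constructor
      · intro _ h1 h2
        exact (h ⟨h1, h2⟩).elim
      · intro _
        exact holds_tt p

open Classical in
/-- The point given by `x`, `s` and `y = s w`. -/
noncomputable def pt (x : ℕ → ℝ) (w : ℕ → ℝ) (s : ℝ) : ℕ → ℝ := fun j =>
  if j % 3 = 0 then (if j / 3 ∈ fvars F then x (j / 3) else 0) else
    if j = 2 then s else if j % 3 = 1 ∧ j / 3 ∈ varsOf (sysOf κ) then s * w (j / 3) else 0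

theorem pt_zero (x w : ℕ → ℝ) (s : ℝ) (i : ℕ) :
    pt F κ x w s (3 * i) = if i ∈ fvars F then x i else 0 := by
  have h1 : 3 * i % 3 = 0 := by omega
  have h2 : 3 * i / 3 = i := by omega
  simp only [pt, h1, h2, if_true]

theorem pt_two (x w : ℕ → ℝ) (s : ℝ) : pt F κ x w s 2 = s := by
  simp [pt]

theorem pt_one (x w : ℕ → ℝ) (s : ℝ) {v : ℕ} (hv : v ∈ varsOf (sysOf κ)) :
    pt F κ x w s (3 * v + 1) = s * w v := by
  have h1 : (3 * v + 1) % 3 = 1 := by omega
  have h2 : (3 * v + 1) / 3 = v := by omega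
  have h3 : ¬ (3 * v + 1 = 2) := by omega
  simp [pt, h1, h2, h3, hv]

theorem pt_off (x w : ℕ → ℝ) (s : ℝ) {j : ℕ} (hj : j ∉ fvars (comb F κ)) :
    pt F κ x w s j = 0 := by
  rw [mem_fvars_comb] at hj
  push Not at hj
  obtain ⟨h1, h2, h3⟩ := hj
  unfold pt
  by_cases h : j % 3 = 0
  · have h4 : j / 3 ∉ fvars F := fun hm => h1 _ hm (by omega)
    rw [if_pos h, if_neg h4]
  · rw [if_neg h, if_neg h2]
    refine if_neg ?_
    rintro ⟨h5, h6⟩
    exact h3 _ h6 (by omega)

theorem pt_F (x w : ℕ → ℝ) (s : ℝ) (hx : F.Holds x) : F.Holds fun i => pt F κ x w s (3 * i) := by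
  refine (holds_congr F fun i hi => ?_).2 hx
  simp only [pt_zero, if_pos hi]

theorem pt_sol (x w : ℕ → ℝ) (s : ℝ) (hs : 0 < s) (hx : F.Holds x) (hw : SysHolds w (sysOf κ))
    (ht : ∀ v ∈ varsOf (sysOf κ), v % 2 = 0 → v / 2 ∈ fvars F → w v = x (v / 2)) :
    pt F κ x w s ∈ sols (comb F κ) := by
  refine ⟨fun j hj => pt_off F κ x w s hj, (comb_holds F κ _).2 ⟨pt_F F κ x w s hx, Or.inr ?_⟩⟩
  rw [pt_two]
  have h1 : ∀ v ∈ varsOf (sysOf κ), pt F κ x w s (3 * v + 1) / s = w v := by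
    intro v hv
    rw [pt_one F κ x w s hv]
    field_simp
  refine ⟨hs, ?_, ?_⟩
  · intro c hc
    exact (ER.Con.holds_congr fun i hi => h1 i (mem_varsOf hc hi)).2 (hw c hc)
  · intro v hv h2 h3
    rw [h1 v hv, ht v hv h2 h3, pt_zero, if_pos h3]

theorem pt_sol0 (x w : ℕ → ℝ) (hx : F.Holds x) : pt F κ x w 0 ∈ sols (comb F κ) := by
  refine ⟨fun j hj => pt_off F κ x w 0 hj, (comb_holds F κ _).2 ⟨pt_F F κ x w 0 hx, Or.inl ?_⟩⟩
  refine ⟨pt_two F κ x w 0, fun v hv => ?_⟩
  rw [pt_one F κ x w 0 hv, zero_mul]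

theorem pt_cont (x w : ℕ → ℝ) (j : ℕ) : Continuous fun s => pt F κ x w s j := by
  unfold pt
  by_cases h : j % 3 = 0
  · simp only [if_pos h]
    exact continuous_const
  · simp only [if_neg h]
    by_cases h2 : j = 2
    · simp only [if_pos h2]
      exact continuous_id
    · simp only [if_neg h2]
      by_cases h3 : j % 3 = 1 ∧ j / 3 ∈ varsOf (sysOf κ)
      · simp only [if_pos h3]
        exact continuous_id.mul continuous_const
      · simp only [if_neg h3]
        exact continuous_const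

/-- Points over which the second condition is solvable are not isolated. -/
theorem not_iso (x w : ℕ → ℝ) (s : ℝ) (hs : 0 ≤ s) (hx : F.Holds x) (hw : SysHolds w (sysOf κ))
    (ht : ∀ v ∈ varsOf (sysOf κ), v % 2 = 0 → v / 2 ∈ fvars F → w v = x (v / 2))
    (p : ℕ → ℝ) (hp : ∀ j ∈ fvars (comb F κ), p j = pt F κ x w s j) (ε : ℝ) (hε : 0 < ε)
    (hiso : ∀ y ∈ sols (comb F κ), (∀ i ∈ fvars (comb F κ), |y i - p i| < ε) → y = p) : False := by
  have h1 : ∀ᶠ t in 𝓝[>] s, ∀ j ∈ {j | j ∈ fvars (comb F κ)}, |pt F κ x w t j - pt F κ x w s j| < ε := by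
    refine (eventually_all_finite (List.finite_toSet _)).2 fun j _ => ?_
    refine eventually_nhdsWithin_of_eventually_nhds ?_
    have h2 := (pt_cont F κ x w j).continuousAt (x := s)
    have h3 := Metric.tendsto_nhds.1 h2 ε hε
    filter_upwards [h3] with t ht'
    rwa [Real.dist_eq] at ht'
  have h2 : ∀ᶠ t in 𝓝[>] s, s < t := eventually_mem_nhdsWithin
  obtain ⟨t, ht1, ht2⟩ := (h1.and h2).exists
  have h3 := hiso _ (pt_sol F κ x w t (hs.trans_lt ht2) hx hw ht) (fun j hj => by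
    rw [hp j hj]
    exact ht1 j hj)
  have h4 : (2 : ℕ) ∈ fvars (comb F κ) := (mem_fvars_comb F κ 2).2 (Or.inr (Or.inl rfl))
  have h5 := hp 2 h4
  rw [← h3, pt_two, pt_two] at h5
  exact ht2.ne' h5

end

theorem combT : S_COMB := by
  classical
  intro F κ hfin
  constructor
  · rintro ⟨p, hp, ε, hε, hiso⟩
    have hp2 := (comb_holds F κ p).1 hp.2
    obtain ⟨hF, h0 | ⟨hs, hw, ht⟩⟩ := hp2
    · refine ⟨fun i => p (3 * i), hF, ?_⟩
      rintro ⟨z, hz1, hz2⟩
      obtain ⟨v, hv1, hv2⟩ := (sysOf_spec κ).2 z hz2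
      refine not_iso F κ (fun i => p (3 * i)) v 0 le_rfl hF hv2 ?_ p ?_ ε hε hiso
      · intro u _ hu1 hu2
        have hu3 : 2 * (u / 2) = u := by omega
        have hu4 := (hv1 (u / 2)).trans (hz1 _ hu2)
        rwa [hu3] at hu4
      · intro j hj
        rcases (mem_fvars_comb F κ j).1 hj with ⟨i, hi, rfl⟩ | rfl | ⟨u, hu, rfl⟩
        · rw [pt_zero, if_pos hi]
        · rw [pt_two, h0.1]
        · rw [pt_one F κ _ _ _ hu, zero_mul, h0.2 u hu]
    · exfalso
      refine not_iso F κ (fun i => p (3 * i)) _ (p 2) hs.le hF hw ht p ?_ ε hε hiso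
      intro j hj
      rcases (mem_fvars_comb F κ j).1 hj with ⟨i, hi, rfl⟩ | rfl | ⟨u, hu, rfl⟩
      · rw [pt_zero, if_pos hi]
      · rw [pt_two]
      · rw [pt_one F κ _ _ _ hu]
        field_simp
  · rintro ⟨x, hx, hno⟩
    set x' : ℕ → ℝ := fun i => if i ∈ fvars F then x i else 0 with hx'
    have hxx : ∀ i ∈ fvars F, x' i = x i := fun i hi => by rw [hx']; exact if_pos hi
    have hx's : x' ∈ sols F := ⟨fun i hi => by rw [hx']; exact if_neg hi,
      (holds_congr F hxx).2 hx⟩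
    have hev : ∀ᶠ ε : ℝ in 𝓝[>] 0, ∀ z ∈ sols F, z ≠ x' → ∃ i ∈ fvars F, ε ≤ |z i - x' i| := by
      refine (eventually_all_finite hfin).2 fun z hz => ?_
      by_cases hzx : z = x'
      · exact Eventually.of_forall fun _ h => (h hzx).elim
      · have h1 : ∃ i ∈ fvars F, z i ≠ x' i := by
          by_contra hc
          push Not at hc
          refine hzx (funext fun i => ?_)
          by_cases hi : i ∈ fvars F
          · exact hc i hi
          · rw [hz.1 i hi, hx's.1 i hi]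
        obtain ⟨i, hi, hne⟩ := h1
        have h2 : 0 < |z i - x' i| := abs_pos.2 (sub_ne_zero.2 hne)
        have h3 : ∀ᶠ ε : ℝ in 𝓝[>] 0, ε ≤ |z i - x' i| :=
          eventually_nhdsWithin_of_eventually_nhds (eventually_le_nhds h2)
        filter_upwards [h3] with ε h4 _
        exact ⟨i, hi, h4⟩
    obtain ⟨ε, h1, hε⟩ := (hev.and (eventually_mem_nhdsWithin : ∀ᶠ ε : ℝ in 𝓝[>] 0, 0 < ε)).exists
    refine ⟨pt F κ x 0 0, pt_sol0 F κ x 0 hx, ε, hε, ?_⟩
    intro q hq hnear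
    have hqx : (fun i => q (3 * i)) = x' := by
      by_contra hne
      have hqs : (fun i => q (3 * i)) ∈ sols F := by
        refine ⟨fun i hi => hq.1 _ fun hm => ?_, ((comb_holds F κ q).1 hq.2).1⟩
        rcases (mem_fvars_comb F κ _).1 hm with ⟨k, hk, h⟩ | h | ⟨u, _, h⟩
        · have : i = k := by omega
          exact hi (this ▸ hk)
        · omega
        · omega
      obtain ⟨i, hi, h2⟩ := h1 _ hqs hne
      have h3 := hnear (3 * i) ((mem_fvars_comb F κ _).2 (Or.inl ⟨i, hi, rfl⟩))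
      rw [pt_zero, if_pos hi, ← hxx i hi] at h3
      exact absurd h3 (not_lt.2 h2)
    obtain ⟨_, h0 | ⟨hs, hw, ht⟩⟩ := (comb_holds F κ q).1 hq.2
    · funext j
      by_cases hj : j ∈ fvars (comb F κ)
      · rcases (mem_fvars_comb F κ j).1 hj with ⟨i, hi, rfl⟩ | rfl | ⟨u, hu, rfl⟩
        · rw [pt_zero, if_pos hi, ← hxx i hi]
          exact congrFun hqx i
        · rw [pt_two, h0.1]
        · rw [pt_one F κ _ _ _ hu, zero_mul, h0.2 u hu]
      · rw [pt_off F κ x 0 0 hj, hq.1 j hj]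
    · exfalso
      set w : ℕ → ℝ := fun v => q (3 * v + 1) / q 2 with hwd
      set v' : ℕ → ℝ := fun j => if j ∈ varsOf (sysOf κ) then w j else
        if j % 2 = 0 ∧ j / 2 ∈ fvars F then x (j / 2) else 0 with hv'
      have hs' : SysHolds v' (sysOf κ) := by
        intro c hc
        refine (ER.Con.holds_congr fun i hi => ?_).2 (hw c hc)
        exact if_pos (mem_varsOf hc hi)
      refine hno ⟨fun i => v' (2 * i), fun i hi => ?_, (sysOf_spec κ).1 v' hs'⟩
      have h2 : 2 * i / 2 = i := by omega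
      by_cases hm : 2 * i ∈ varsOf (sysOf κ)
      · have h3 := ht (2 * i) hm (by omega) (by rw [h2]; exact hi)
        rw [h2] at h3
        have h4 : v' (2 * i) = w (2 * i) := if_pos hm
        have h5 : q (3 * i) = x' i := congrFun hqx i
        simp only [h4, hwd, h3, h5, hxx i hi]
      · have h4 : v' (2 * i) = x i := by
          simp only [hv', if_neg hm, h2]
          exact if_pos ⟨by omega, hi⟩
        exact h4

end Pool.Agent.W111.IP
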